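import Mathlib

set_option autoImplicit false

namespace Pool.Agent.Results.MP_b44c21_co.BipartiteBound

open Finset

/-- Eccentricity of a vertex. -/
noncomputable def ecc {V : Type} [Fintype V] (G : SimpleGraph V) (v : V) : ℕ :=
  univ.sup fun u => G.dist v u

/-- Average eccentricity. -/
noncomputable def avgEcc {V : Type} [Fintype V] (G : SimpleGraph V) : ℝ :=
  (∑ v, (ecc G v : ℝ)) / Fintype.card V

/-- Local independence number: independence number of the graph induced on `N(v)`. -/
noncomputable def locInd {V : Type} (G : SimpleGraph V) (v : V) : ℕ :=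
  (G.induce (G.neighborSet v)).indepNum

/-- Maximum local independence number. -/
noncomputable def maxLocInd {V : Type} [Fintype V] (G : SimpleGraph V) : ℕ :=
  univ.sup fun v => locInd G v

open Classical in
/-- The largest number of vertices of an induced bipartite subgraph. -/
noncomputable def bip {V : Type} [Fintype V] (G : SimpleGraph V) : ℕ :=
  (univ.filter fun S : Finset V => (G.induce (S : Set V)).Colorable 2).sup card

variable {V : Type} [Fintype V]

lemma le_bip (G : SimpleGraph V) (S : Finset V) (h : (G.induce (S : Set V)).Colorable 2) :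
    S.card ≤ bip G := by
  classical
  unfold bip
  exact Finset.le_sup (f := card) (by simp [h])

/-- geodesic -/
lemma geo (G : SimpleGraph V) (hG : G.Connected) (v x : V) :
    ∃ p : ℕ → V, ∀ i ≤ G.dist v x, G.dist v (p i) = i ∧ G.dist (p i) x = G.dist v x - i := by
  obtain ⟨w, hw⟩ := hG.exists_walk_length_eq_dist v x
  refine ⟨w.getVert, fun i hi => ?_⟩
  have h1 : G.dist v (w.getVert i) ≤ i := by
    have := SimpleGraph.dist_le (w.take i)
    rw [SimpleGraph.Walk.take_length] at this
    exact this.trans (min_le_left _ _)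
  have h2 : G.dist (w.getVert i) x ≤ G.dist v x - i := by
    have := SimpleGraph.dist_le (w.drop i)
    rw [SimpleGraph.Walk.drop_length, hw] at this
    exact this
  have h3 : G.dist v x ≤ G.dist v (w.getVert i) + G.dist (w.getVert i) x := hG.dist_triangle
  omega

/-- A set in which adjacent vertices have different distance from `v` induces a bipartite graph. -/
lemma colorable_of_levels (G : SimpleGraph V) (v : V) (S : Finset V)
    (h : ∀ a ∈ S, ∀ b ∈ S, G.Adj a b → G.dist v a ≠ G.dist v b) :
    (G.induce (S : Set V)).Colorable 2 := by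
  refine ⟨SimpleGraph.Coloring.mk (fun a => (⟨G.dist v a.1 % 2, by omega⟩ : Fin 2)) ?_⟩
  intro a b hab hc
  have hadj : G.Adj a.1 b.1 := hab
  have h1 := h a.1 a.2 b.1 b.2 hadj
  have h2 : G.dist v a.1 % 2 = G.dist v b.1 % 2 := by
    have := congrArg Fin.val hc
    simpa using this
  have h3 := hadj.diff_dist_adj (u := v)
  omega

/-- Main construction: star at `v` with an independent set in the neighbourhood, plus vertices at
levels at least two such that vertices on the same level are pairwise non-adjacent. -/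
lemma bip_ge (G : SimpleGraph V) (v : V) (T : Finset V) (hT : ∀ a ∈ T, 2 ≤ G.dist v a)
    (hT2 : ∀ a ∈ T, ∀ b ∈ T, G.Adj a b → G.dist v a ≠ G.dist v b) :
    locInd G v + 1 + T.card ≤ bip G := by
  classical
  obtain ⟨s, hs⟩ := (G.induce (G.neighborSet v)).exists_isNIndepSet_indepNum
  rw [SimpleGraph.isNIndepSet_iff] at hs
  obtain ⟨hs1, hs2⟩ := hs
  set I : Finset V := s.map (Function.Embedding.subtype _) with hI
  have hIc : I.card = locInd G v := by rw [hI, card_map, hs2]; rfl
  have hIadj : ∀ a ∈ I, G.Adj v a := by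
    intro a ha
    rw [hI, mem_map] at ha
    obtain ⟨b, _, rfl⟩ := ha
    exact b.2
  have hI1 : ∀ a ∈ I, G.dist v a = 1 := fun a ha => SimpleGraph.dist_eq_one_iff_adj.mpr (hIadj a ha)
  have hIind : ∀ a ∈ I, ∀ b ∈ I, ¬ G.Adj a b := by
    intro a ha b hb hab
    rw [hI, mem_map] at ha hb
    obtain ⟨a', ha', rfl⟩ := ha
    obtain ⟨b', hb', rfl⟩ := hb
    have hne : a' ≠ b' := by
      rintro rfl
      exact hab.ne rfl
    exact hs1 ha' hb' hne hab
  set S : Finset V := insert v (I ∪ T) with hS
  have hd1 : Disjoint I T := by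
    rw [Finset.disjoint_left]
    intro a ha hb
    have := hI1 a ha
    have := hT a hb
    omega
  have hv : v ∉ I ∪ T := by
    intro h
    rcases mem_union.mp h with h | h
    · have := hI1 v h
      rw [SimpleGraph.dist_self] at this
      omega
    · have := hT v h
      rw [SimpleGraph.dist_self] at this
      omega
  have hcard : S.card = locInd G v + 1 + T.card := by
    rw [hS, card_insert_of_notMem hv, card_union_of_disjoint hd1, hIc]
    omega
  rw [← hcard]
  apply le_bip
  apply colorable_of_levels G v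
  intro a ha b hb hab heq
  rw [hS, mem_insert, mem_union] at ha hb
  rcases ha with rfl | ha | ha
  · rcases hb with rfl | hb | hb
    · exact hab.ne rfl
    · rw [SimpleGraph.dist_self, hI1 b hb] at heq; omega
    · have := hT b hb
      rw [SimpleGraph.dist_self] at heq; omega
  · rcases hb with rfl | hb | hb
    · rw [SimpleGraph.dist_self, hI1 a ha] at heq; omega
    · exact hIind a ha b hb hab
    · have := hT b hb
      rw [hI1 a ha] at heq; omega
  · rcases hb with rfl | hb | hb
    · have := hT a ha
      rw [SimpleGraph.dist_self] at heq; omega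
    · have := hT a ha
      rw [hI1 b hb] at heq; omega
    · exact hT2 a ha b hb hab heq

lemma claimA (G : SimpleGraph V) (hG : G.Connected) (v x : V) :
    locInd G v + G.dist v x ≤ bip G := by
  classical
  obtain ⟨p, hp⟩ := geo G hG v x
  set T : Finset V := (Icc 2 (G.dist v x)).image p with hT
  have hTc : T.card = G.dist v x - 1 := by
    rw [hT, card_image_of_injOn, Nat.card_Icc]
    · omega
    · intro i hi j hj hij
      simp only [coe_Icc, Set.mem_Icc] at hi hj
      have h1 := (hp i hi.2).1
      have h2 := (hp j hj.2).1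
      rw [hij] at h1
      omega
  have h := bip_ge G v T (by
    intro a ha
    rw [hT, mem_image] at ha
    obtain ⟨i, hi, rfl⟩ := ha
    rw [mem_Icc] at hi
    rw [(hp i hi.2).1]
    exact hi.1) (by
    intro a ha b hb hab heq
    rw [hT, mem_image] at ha hb
    obtain ⟨i, hi, rfl⟩ := ha
    obtain ⟨j, hj, rfl⟩ := hb
    rw [mem_Icc] at hi hj
    rw [(hp i hi.2).1, (hp j hj.2).1] at heq
    rw [heq] at hab
    exact hab.ne rfl)
  rw [hTc] at h
  omega

lemma claimB (G : SimpleGraph V) (hG : G.Connected) (v x y : V)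
    (hx : G.dist v x < G.dist x y) (hy : G.dist v y < G.dist x y) :
    locInd G v + G.dist x y - 1 ≤ bip G := by
  classical
  obtain ⟨p, hp⟩ := geo G hG v x
  obtain ⟨q, hq⟩ := geo G hG v y
  have htri : G.dist x y ≤ G.dist v x + G.dist v y := by
    have := hG.dist_triangle (u := x) (v := v) (w := y)
    rwa [SimpleGraph.dist_comm (u := x) (v := v)] at this
  set D := G.dist x y with hD
  set a := G.dist v x with ha
  set b := G.dist v y with hb
  obtain ⟨σ, hσ⟩ : ∃ σ, a + b = D + σ := ⟨a + b - D, by omega⟩
  -- same level distance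
  have hpq : ∀ i, i ≤ a → i ≤ b → 2 * i ≤ G.dist (p i) (q i) + σ := by
    intro i hia hib
    have h1 := (hp i hia).2
    have h2 := (hq i hib).2
    have h3 := hG.dist_triangle (u := x) (v := p i) (w := y)
    have h4 := hG.dist_triangle (u := p i) (v := q i) (w := y)
    rw [SimpleGraph.dist_comm (u := x) (v := p i)] at h3
    omega
  set P : Finset V := (Icc 2 a).image p with hP
  set Q : Finset V := (Icc (max 2 ((σ + 3) / 2)) b).image q with hQ
  have hPc : P.card = a - 1 := by
    rw [hP, card_image_of_injOn, Nat.card_Icc]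
    · omega
    · intro i hi j hj hij
      simp only [coe_Icc, Set.mem_Icc] at hi hj
      have h1 := (hp i hi.2).1
      have h2 := (hp j hj.2).1
      rw [hij] at h1
      omega
  have hQc : Q.card = b + 1 - max 2 ((σ + 3) / 2) := by
    rw [hQ, card_image_of_injOn, Nat.card_Icc]
    intro i hi j hj hij
    simp only [coe_Icc, Set.mem_Icc] at hi hj
    have h1 := (hq i hi.2).1
    have h2 := (hq j hj.2).1
    rw [hij] at h1
    omega
  have hPm : ∀ c ∈ P, ∃ i, 2 ≤ i ∧ i ≤ a ∧ c = p i := by
    intro c hc
    rw [hP, mem_image] at hc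
    obtain ⟨i, hi, rfl⟩ := hc
    rw [mem_Icc] at hi
    exact ⟨i, hi.1, hi.2, rfl⟩
  have hQm : ∀ c ∈ Q, ∃ i, 2 ≤ i ∧ i ≤ b ∧ σ + 2 ≤ 2 * i ∧ c = q i := by
    intro c hc
    rw [hQ, mem_image] at hc
    obtain ⟨i, hi, rfl⟩ := hc
    rw [mem_Icc] at hi
    have h1 : 2 ≤ i := le_trans (le_max_left _ _) hi.1
    have h2 : (σ + 3) / 2 ≤ i := le_trans (le_max_right _ _) hi.1
    exact ⟨i, h1, hi.2, by omega, rfl⟩
  have hcross : ∀ i j, i ≤ a → j ≤ b → σ + 2 ≤ 2 * j → G.dist v (p i) = G.dist v (q j) →
      2 ≤ G.dist (p i) (q j) := by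
    intro i j hi hj hσj heq
    rw [(hp i hi).1, (hq j hj).1] at heq
    subst heq
    have := hpq i hi hj
    omega
  have hdisj : Disjoint P Q := by
    rw [Finset.disjoint_left]
    intro c hc hc'
    obtain ⟨i, hi2, hia, rfl⟩ := hPm c hc
    obtain ⟨j, hj2, hjb, hjσ, hj⟩ := hQm _ hc'
    have := hcross i j hia hjb hjσ (by rw [hj])
    rw [hj, SimpleGraph.dist_self] at this
    omega
  have h := bip_ge G v (P ∪ Q) (by
    intro c hc
    rcases mem_union.mp hc with hc | hc
    · obtain ⟨i, hi2, hia, rfl⟩ := hPm c hc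
      rw [(hp i hia).1]; exact hi2
    · obtain ⟨i, hi2, hib, _, rfl⟩ := hQm c hc
      rw [(hq i hib).1]; exact hi2) (by
    intro c hc d hd hcd heq
    rcases mem_union.mp hc with hc | hc <;> rcases mem_union.mp hd with hd | hd
    · obtain ⟨i, _, hia, rfl⟩ := hPm c hc
      obtain ⟨j, _, hja, rfl⟩ := hPm d hd
      rw [(hp i hia).1, (hp j hja).1] at heq
      rw [heq] at hcd
      exact hcd.ne rfl
    · obtain ⟨i, _, hia, rfl⟩ := hPm c hc
      obtain ⟨j, _, hjb, hjσ, rfl⟩ := hQm d hd
      have := hcross i j hia hjb hjσ heq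
      rw [SimpleGraph.dist_eq_one_iff_adj.mpr hcd] at this
      omega
    · obtain ⟨j, _, hjb, hjσ, rfl⟩ := hQm c hc
      obtain ⟨i, _, hia, rfl⟩ := hPm d hd
      have := hcross i j hia hjb hjσ heq.symm
      rw [SimpleGraph.dist_comm, SimpleGraph.dist_eq_one_iff_adj.mpr hcd] at this
      omega
    · obtain ⟨i, _, hib, _, rfl⟩ := hQm c hc
      obtain ⟨j, _, hjb, _, rfl⟩ := hQm d hd
      rw [(hq i hib).1, (hq j hjb).1] at heq
      rw [heq] at hcd
      exact hcd.ne rfl)
  rw [card_union_of_disjoint hdisj, hPc, hQc] at h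
  omega

/-- The conjectured inequality holds for every finite connected graph. -/
theorem result (V : Type) [Fintype V] (G : SimpleGraph V) (hG : G.Connected) :
    ⌊avgEcc G + (maxLocInd G : ℝ)⌋ ≤ (bip G : ℤ) := by
  classical
  haveI := hG.nonempty
  -- vertex attaining L
  obtain ⟨v, _, hv⟩ := Finset.exists_mem_eq_sup (univ : Finset V) univ_nonempty (fun v => locInd G v)
  have hL : maxLocInd G = locInd G v := hv
  -- maximum eccentricity
  obtain ⟨x, _, hx⟩ := Finset.exists_mem_eq_sup (univ : Finset V) univ_nonempty (fun v => ecc G v)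
  obtain ⟨y, _, hy⟩ := Finset.exists_mem_eq_sup (univ : Finset V) univ_nonempty (fun u => G.dist x u)
  have hD : ecc G x = G.dist x y := hy
  have hle : ∀ w, ecc G w ≤ ecc G x := by
    intro w
    have h := Finset.le_sup (f := fun v => ecc G v) (mem_univ w)
    rw [hx] at h
    exact h
  have hcpos : (0 : ℝ) < Fintype.card V := by
    exact_mod_cast Fintype.card_pos
  have hsum : ∑ w, (ecc G w : ℝ) ≤ Fintype.card V * (ecc G x : ℝ) := by
    calc ∑ w, (ecc G w : ℝ) ≤ ∑ _w : V, (ecc G x : ℝ) :=
          Finset.sum_le_sum fun w _ => by exact_mod_cast hle w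
      _ = Fintype.card V * (ecc G x : ℝ) := by
          rw [Finset.sum_const, card_univ, nsmul_eq_mul]
  by_cases hcase : ecc G v = ecc G x
  · obtain ⟨u, _, hu⟩ := Finset.exists_mem_eq_sup (univ : Finset V) univ_nonempty
      (fun u => G.dist v u)
    have hu' : ecc G v = G.dist v u := hu
    have hA := claimA G hG v u
    rw [← hu', hcase] at hA
    have hav : avgEcc G ≤ ecc G x := by
      unfold avgEcc
      rw [div_le_iff₀ hcpos]
      linarith
    have h1 : avgEcc G + (maxLocInd G : ℝ) ≤ ((bip G : ℤ) : ℝ) := by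
      rw [hL]
      have : ((locInd G v + ecc G x : ℕ) : ℝ) ≤ (bip G : ℝ) := by exact_mod_cast hA
      push_cast at this ⊢
      linarith
    have h2 := Int.floor_le (avgEcc G + (maxLocInd G : ℝ))
    exact_mod_cast h2.trans h1
  · have hlt : ecc G v < ecc G x := lt_of_le_of_ne (hle v) hcase
    have hvx : G.dist v x ≤ ecc G v := Finset.le_sup (f := fun u => G.dist v u) (mem_univ x)
    have hvy : G.dist v y ≤ ecc G v := Finset.le_sup (f := fun u => G.dist v u) (mem_univ y)
    have hB := claimB G hG v x y (by omega) (by omega)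
    rw [← hD] at hB
    have hav : avgEcc G < ecc G x := by
      unfold avgEcc
      rw [div_lt_iff₀ hcpos]
      have : ∑ w, (ecc G w : ℝ) < ∑ _w : V, (ecc G x : ℝ) := by
        apply Finset.sum_lt_sum
        · intro w _
          exact_mod_cast hle w
        · exact ⟨v, mem_univ v, by exact_mod_cast hlt⟩
      rw [Finset.sum_const, card_univ, nsmul_eq_mul] at this
      linarith
    have h1 : ⌊avgEcc G + (maxLocInd G : ℝ)⌋ < ((ecc G x + locInd G v : ℕ) : ℤ) := by
      rw [Int.floor_lt, hL]
      push_cast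
      linarith
    have h2 : locInd G v + ecc G x ≤ bip G + 1 := by omega
    have h3 : ((ecc G x + locInd G v : ℕ) : ℤ) ≤ (bip G : ℤ) + 1 := by
      exact_mod_cast (by omega : ecc G x + locInd G v ≤ bip G + 1)
    omega

end Pool.Agent.Results.MP_b44c21_co.BipartiteBound
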